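import Pool.Agent.Q170.RS.DF
import Pool.Agent.Q170.RS.Ten

/-!
# Zero sets of coefficients of D-finite power series: a power saving for the exceptional set

Let `f = ∑ a_n z^n` be a D-finite power series over a field `K` of characteristic zero, i.e.
`p_m f^(m) + ... + p_0 f = 0`, of order at most `m` and degree at most `d`, `m + d ≤ t + 2`.
Then `{n | a_n = 0}` is the union of `C` arithmetic progressions (finite or infinite) with one common
difference `g0 ≤ C` and an exceptional set `E` which has at most `C T ^ (1 - δ)` elements in every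
interval of length `T`, `δ = 1 / (3 * 2 ^ t)`. Here `C` and `g0` depend only on the differential
equation (they are the same for all its solutions).

The same holds for the polynomial relations between the entries of the solutions of linear systems
`Q(x_n) v_(n+1) = N(x_n) v_n` over any field, where `x_(n+1) = α x_n + β` has no repetitions (for
example `x_n = n` in characteristic zero, or `x_n = q ^ n`).

The proof: let `n` and `n + g_1, ..., n + g_k` be zeros. If the corresponding linear forms in the
vector `u_n` span a space of dimension `r` (the rank of the system) over `K(x)` then `n` is a zero of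
a polynomial of degree `O(g_k)`. So there are few such `n` in comparison with the length of the
interval if `g_k` is a small power of it. If the span stays smaller when further returns are added it
is invariant under the Frobenius-like operator of the system, some iterate of it, and this gives
progressions of returns.
-/

set_option autoImplicit false

open Polynomial

namespace Pool.Agent.Results.MP_1eeaa7_nt.ZeroSetsPowerSaving

/-- A finite or infinite (or empty) arithmetic progression with difference `g`: the elements of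
`[a, b)`, `b ≤ ∞`, in the residue class of `a` modulo `g`. -/
def IsProgression (g : ℕ) (s : Set ℕ) : Prop :=
  ∃ (a : ℕ) (b : ℕ∞), s = {n | a ≤ n ∧ n % g = a % g ∧ (n : ℕ∞) < b}

/-- `S` is the union of `C` progressions with difference `g` and a set with at most `C T ^ (1 - δ)`
elements in every interval `[M, M + T)`, `T ≥ 1`. -/
def PowerSaving (C g : ℕ) (δ : ℝ) (S : Set ℕ) : Prop :=
  ∃ (P : Fin C → Set ℕ) (E : Set ℕ), (∀ k, IsProgression g (P k)) ∧ S = (⋃ k, P k) ∪ E ∧
    ∀ M T : ℕ, 1 ≤ T → ((E ∩ Set.Ico M (M + T)).ncard : ℝ) ≤ (C : ℝ) * (T : ℝ) ^ (1 - δ)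

/-- The value of a polynomial in `x` and `y_1, ..., y_r`. -/
noncomputable def value {K : Type} [Field K] {r : ℕ} (x : K) (y : Fin r → K)
    (h : MvPolynomial (Fin r) K[X]) : K :=
  MvPolynomial.eval₂ (Polynomial.evalRingHom x) y h

/-- Zero sets of D-finite power series, and of polynomial expressions in the solutions of linear
systems, with a power saving for the exceptional set which is uniform in the solutions. -/
theorem result :
    (∀ (K : Type) [Field K] [CharZero K] (t m d : ℕ) (p : Fin (m + 1) → K[X]),
      (∃ i, p i ≠ 0) → (∀ i, (p i).natDegree ≤ d) → m + d ≤ t + 2 →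
      ∃ C g : ℕ, 1 ≤ g ∧ g ≤ C ∧ ∀ a : ℕ → K,
        ∑ i : Fin (m + 1), ((p i : K[X]) : PowerSeries K) *
          (⇑(PowerSeries.derivative K))^[(i : ℕ)] (PowerSeries.mk a) = 0 →
        PowerSaving C g (1 / (3 * 2 ^ t)) {n | a n = 0}) ∧
    (∀ (K : Type) [Field K] [CharZero K] (t : ℕ) (q : ℕ → K[X]), (∃ u, q u ≠ 0) →
      (∀ u, t + 2 < u → q u = 0) →
      ∃ C g : ℕ, 1 ≤ g ∧ g ≤ C ∧ ∀ (n₀ : ℕ) (a : ℕ → K),
        (∀ n, n₀ ≤ n → ∑ u ∈ Finset.range (t + 3), (q u).eval (n : K) * a (n + u) = 0) →
        PowerSaving C g (1 / (3 * 2 ^ t)) {n | a (n₀ + n) = 0}) ∧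
    (∀ (K : Type) [Field K] (α β : K), α ≠ 0 → ∀ (r m : ℕ) (N : Matrix (Fin r) (Fin r) K[X])
      (Q : K[X]), Q ≠ 0 → ∀ H : Set (MvPolynomial (Fin r) K[X]),
      (∀ h ∈ H, h.totalDegree ≤ m) →
      ∃ C g : ℕ, 1 ≤ g ∧ g ≤ C ∧ ∀ x : ℕ → K, Function.Injective x →
        (∀ n, x (n + 1) = α * x n + β) → ∀ v : ℕ → Fin r → K,
        (∀ n i, Q.eval (x n) * v (n + 1) i = ∑ j, (N i j).eval (x n) * v n j) →
        PowerSaving C g (1 / (3 * 2 ^ ((r + m).choose m - 2)))
          {n | ∀ h ∈ H, value (x n) (v n) h = 0}) :=
  ⟨fun _ _ _ t m d p hp hd hmd => Pool.Agent.Q170.RS.dfinite t m d p hp hd hmd,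
    fun _ _ _ t q hq hq0 => Pool.Agent.Q170.RS.prec t q hq hq0,
    fun _ _ _ β hα _ m N Q hQ H hH => Pool.Agent.Q170.RS.polynomial hα β N Q hQ m H hH⟩

end Pool.Agent.Results.MP_1eeaa7_nt.ZeroSetsPowerSaving
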